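import Pool.Agent.Y875.FP.MerH

/-!
Congruences modulo powers of two in the ring of rational numbers with odd denominator, the signs
of the index law, and the identity for the sum of two of its series.
-/

set_option autoImplicit false

namespace Pool.Agent.U976.Fer

open Pool.Agent.Y875.FP

/-- `a ≡ b` modulo `2^M` in `ℤ_(2)`. -/
def Cg (M : ℕ) (a b : ℚ) : Prop := ∃ d n : ℤ, Odd d ∧ (d : ℚ) * (a - b) = 2 ^ M * n

lemma Cg.refl (M : ℕ) (a : ℚ) : Cg M a a := ⟨1, 0, odd_one, by simp⟩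

lemma Cg.of_eq {M : ℕ} {a b : ℚ} (h : a = b) : Cg M a b := h ▸ Cg.refl M a

lemma Cg.symm {M : ℕ} {a b : ℚ} (h : Cg M a b) : Cg M b a := by
  obtain ⟨d, n, hd, h⟩ := h
  refine ⟨d, -n, hd, ?_⟩
  push_cast
  linear_combination -h

lemma Cg.add {M : ℕ} {a b c e : ℚ} (h : Cg M a b) (h' : Cg M c e) : Cg M (a + c) (b + e) := by
  obtain ⟨d, n, hd, h⟩ := h
  obtain ⟨d', n', hd', h'⟩ := h'
  refine ⟨d * d', d' * n + d * n', hd.mul hd', ?_⟩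
  push_cast
  linear_combination (d' : ℚ) * h + (d : ℚ) * h'

lemma Cg.trans {M : ℕ} {a b c : ℚ} (h : Cg M a b) (h' : Cg M b c) : Cg M a c := by
  obtain ⟨d, n, hd, h⟩ := h
  obtain ⟨d', n', hd', h'⟩ := h'
  refine ⟨d * d', d' * n + d * n', hd.mul hd', ?_⟩
  push_cast
  linear_combination (d' : ℚ) * h + (d : ℚ) * h'

lemma Cg.zmul {M : ℕ} {a b : ℚ} (z : ℤ) (h : Cg M a b) : Cg M (z * a) (z * b) := by
  obtain ⟨d, n, hd, h⟩ := h
  refine ⟨d, z * n, hd, ?_⟩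
  push_cast
  linear_combination (z : ℚ) * h

lemma Cg.neg {M : ℕ} {a b : ℚ} (h : Cg M a b) : Cg M (-a) (-b) := by
  have := h.zmul (-1)
  simpa using this

lemma Cg.sub {M : ℕ} {a b c e : ℚ} (h : Cg M a b) (h' : Cg M c e) : Cg M (a - c) (b - e) := by
  rw [sub_eq_add_neg, sub_eq_add_neg]
  exact h.add h'.neg

lemma Cg.mono {M M' : ℕ} (hM : M' ≤ M) {a b : ℚ} (h : Cg M a b) : Cg M' a b := by
  obtain ⟨d, n, hd, h⟩ := h
  obtain ⟨c, rfl⟩ := Nat.exists_eq_add_of_le hM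
  refine ⟨d, 2 ^ c * n, hd, ?_⟩
  rw [h, pow_add]
  push_cast
  ring

lemma Cg.pmul {M a : ℕ} {x y : ℚ} (h : Cg M x y) : Cg (a + M) (2 ^ a * x) (2 ^ a * y) := by
  obtain ⟨d, n, hd, h⟩ := h
  refine ⟨d, n, hd, ?_⟩
  rw [pow_add]
  linear_combination (2 : ℚ) ^ a * h

lemma Cg.sum {M K : ℕ} {f g : ℕ → ℚ} (h : ∀ k < K, Cg M (f k) (g k)) :
    Cg M (∑ k ∈ Finset.range K, f k) (∑ k ∈ Finset.range K, g k) := by
  induction K with
  | zero => exact Cg.refl _ _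
  | succ K ih =>
    rw [Finset.sum_range_succ, Finset.sum_range_succ]
    exact (ih fun k hk => h k (by omega)).add (h K (by omega))

lemma Cg.sum_zero {M K : ℕ} {f : ℕ → ℚ} (h : ∀ k < K, Cg M (f k) 0) :
    Cg M (∑ k ∈ Finset.range K, f k) 0 := by
  have := Cg.sum (g := fun _ => 0) h
  simpa using this

/-- integers -/
lemma Cg.int {M : ℕ} {a b : ℤ} (h : (2 : ℤ) ^ M ∣ a - b) : Cg M (a : ℚ) (b : ℚ) := by
  obtain ⟨n, hn⟩ := h
  refine ⟨1, n, odd_one, ?_⟩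
  have : ((a - b : ℤ) : ℚ) = ((2 ^ M * n : ℤ) : ℚ) := by rw [hn]
  push_cast at this ⊢
  linear_combination this

lemma Cg.int_iff {M : ℕ} {a b : ℤ} : Cg M (a : ℚ) (b : ℚ) ↔ (2 : ℤ) ^ M ∣ a - b := by
  refine ⟨?_, Cg.int⟩
  rintro ⟨d, n, hd, h⟩
  have h1 : d * (a - b) = 2 ^ M * n := by exact_mod_cast h
  have hcop : IsCoprime ((2 : ℤ) ^ M) d := by
    apply IsCoprime.pow_left
    obtain ⟨c, hc⟩ := hd
    exact ⟨-c, 1, by rw [hc]; ring⟩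
  exact hcop.dvd_of_dvd_mul_left ⟨n, h1⟩

/-- a term of the series -/
lemma term_zero {M a b k : ℕ} (hk : 0 < k) (h : ∀ v, 2 ^ v ∣ k → M + v ≤ a + b * k) :
    Cg M (2 ^ a * (((2 ^ b : ℕ) : ℚ) ^ k / (k : ℚ))) 0 := by
  obtain ⟨e, o, ho, he⟩ := Nat.exists_eq_two_pow_mul_odd hk.ne'
  have h1 := h e ⟨o, he⟩
  obtain ⟨c, hc⟩ := Nat.exists_eq_add_of_le h1
  refine ⟨o, 2 ^ c, by exact_mod_cast ho, ?_⟩
  have h3 : (k : ℚ) = 2 ^ e * o := by rw [he]; push_cast; ring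
  have h4 : (o : ℚ) ≠ 0 := by
    have : o ≠ 0 := by have := ho.pos; omega
    exact_mod_cast this
  have h5 : (2 : ℚ) ^ a * (2 ^ b) ^ k = 2 ^ M * 2 ^ e * 2 ^ c := by
    rw [← pow_mul, ← pow_add, hc, pow_add, pow_add]
  push_cast
  rw [h3, sub_zero]
  field_simp
  linear_combination (o : ℚ) * h5 - (o : ℚ) * h5 + h5

end Pool.Agent.U976.Fer
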