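import Pool.Agent.U976.Fer.Fin

set_option autoImplicit false

namespace Pool.Agent.U976.Fer

open Pool.Agent.Y875.FP

lemma T_lt (m : ℕ) : m + 1 ≤ 2 ^ m := Nat.lt_two_pow_self

/-- `T` is divisible by eight -/
lemma eight_dvd_T {m : ℕ} (hm : 4 ≤ m) : ∃ t, TT m = 8 * t := by
  have hb := big m hm
  refine ⟨2 ^ (2 ^ m - (m + 1) - 3), ?_⟩
  unfold TT
  rw [show (8 : ℕ) = 2 ^ 3 by norm_num, ← pow_add]
  congr 1
  omega

lemma even_T {m : ℕ} (hm : 4 ≤ m) : Even (TT m) := by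
  obtain ⟨t, ht⟩ := eight_dvd_T hm
  exact ⟨4 * t, by omega⟩

/-- elements with `T`-th power one are `2^(m+1)`-th powers -/
lemma root_of {m : ℕ} (hF : (Nat.fermatNumber m).Prime) {a : ZMod (Nat.fermatNumber m)}
    (h : a ^ TT m = 1) : ∃ y : ZMod (Nat.fermatNumber m), y ^ (2 ^ (m + 1)) = a := by
  have : Fact (Nat.fermatNumber m).Prime := ⟨hF⟩
  have hT0 : TT m ≠ 0 := by unfold TT; positivity
  have ha : a ≠ 0 := by
    rintro rfl
    rw [zero_pow hT0] at h
    exact zero_ne_one h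
  obtain ⟨g, hg⟩ := IsCyclic.exists_generator (α := (ZMod (Nat.fermatNumber m))ˣ)
  have h1 : Units.mk0 a ha ∈ Submonoid.powers g := by
    rw [mem_powers_iff_mem_zpowers]
    exact hg _
  obtain ⟨n, hn⟩ := h1
  have hn' : (g : ZMod (Nat.fermatNumber m)) ^ n = a := by
    have := congrArg Units.val hn
    simpa using this
  have ho : orderOf g = 2 ^ (2 ^ m) := by
    rw [orderOf_eq_card_of_forall_mem_zpowers hg, Nat.card_eq_fintype_card, ZMod.card_units]
    unfold Nat.fermatNumber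
    rw [Nat.add_sub_cancel]
  have h2 : g ^ (n * TT m) = 1 := by
    apply Units.ext
    rw [pow_mul]
    push_cast
    rw [hn', h]
  have h3 := orderOf_dvd_of_pow_eq_one h2
  rw [ho] at h3
  have h4 : 2 ^ (2 ^ m) = 2 ^ (m + 1) * TT m := by
    unfold TT
    rw [← pow_add]
    congr 1
    have := T_lt m
    omega
  rw [h4] at h3
  obtain ⟨c, hc⟩ := Nat.dvd_of_mul_dvd_mul_right (Nat.pos_of_ne_zero hT0) h3
  refine ⟨(g : ZMod (Nat.fermatNumber m)) ^ c, ?_⟩
  rw [← pow_mul, mul_comm c, ← hc, hn']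

/-- `2 ^ s - 1`, `s` even -/
lemma res_s {m s i : ℕ} (hm : 4 ≤ m) (hi : m + 3 ≤ 2 ^ i) (hd : 2 ^ i ∣ s)
    (hnd : ¬ 2 ^ (m + 1) ∣ s) (hF : (Nat.fermatNumber m).Prime) :
    ((2 : ZMod (Nat.fermatNumber m)) ^ s - 1) ^ TT m = 1 := by
  have hs0 : s ≠ 0 := by
    rintro rfl
    exact hnd (dvd_zero _)
  obtain ⟨e, o, ho, rfl⟩ := Nat.exists_eq_two_pow_mul_odd hs0
  have hcop : Nat.Coprime (2 ^ i) o := by
    apply Nat.Coprime.pow_left
    rw [Nat.coprime_two_left]
    exact ho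
  have h3 : i ≤ e := (Nat.pow_dvd_pow_iff_le_right (by norm_num)).mp (hcop.dvd_of_dvd_mul_right hd)
  have h4 : e ≤ m := by
    by_contra h
    exact hnd ((pow_dvd_pow 2 (by omega)).mul_right _)
  have h5 : 2 ^ i ≤ 2 ^ e := Nat.pow_le_pow_right (by norm_num) h3
  exact large hm (hi.trans h5) h4 ho hF

lemma neg_one_ne_one {m : ℕ} : (-1 : ZMod (Nat.fermatNumber m)) ≠ 1 := by
  have : Fact (2 < Nat.fermatNumber m) := ⟨by
    have := Nat.three_le_fermatNumber m
    omega⟩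
  exact ZMod.neg_one_ne_one

/-- `2` is a primitive root of unity -/
lemma prim_two (m : ℕ) : IsPrimitiveRoot (2 : ZMod (Nat.fermatNumber m)) (2 ^ (m + 1)) := by
  have h : orderOf (2 : ZMod (Nat.fermatNumber m)) = 2 ^ (m + 1) := by
    apply orderOf_eq_prime_pow
    · rw [two_pow_neg]
      exact neg_one_ne_one
    · exact two_pow_one m
  rw [← h]
  exact IsPrimitiveRoot.orderOf _

/-- cyclotomic units -/
lemma cyc {m i j : ℕ} (hm : 4 ≤ m) (hi : m + 3 ≤ 2 ^ i) (hij : i + j ≤ m + 1)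
    (hF : (Nat.fermatNumber m).Prime) {z : ZMod (Nat.fermatNumber m)} (hz : z ^ (2 ^ j) = 1)
    (hz1 : z ≠ 1) : (1 - z) ^ TT m = 1 := by
  have : Fact (Nat.fermatNumber m).Prime := ⟨hF⟩
  have h1 : IsPrimitiveRoot ((2 : ZMod (Nat.fermatNumber m)) ^ (2 ^ (m + 1 - j))) (2 ^ j) := by
    apply (prim_two m).pow (by positivity)
    rw [← pow_add]
    congr 1
    omega
  have : NeZero (2 ^ j) := ⟨by positivity⟩
  obtain ⟨t, -, ht⟩ := h1.eq_pow_of_pow_eq_one hz
  rw [← pow_mul] at ht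
  have h2 : ((2 : ZMod (Nat.fermatNumber m)) ^ (2 ^ (m + 1 - j) * t) - 1) ^ TT m = 1 := by
    apply res_s (i := i) hm hi _ _ hF
    · exact (pow_dvd_pow 2 (by omega)).mul_right _
    · intro hd
      apply hz1
      obtain ⟨c, hc⟩ := hd
      rw [← ht, hc, pow_mul, two_pow_one, one_pow]
  rw [← ht, ← neg_sub, (even_T hm).neg_pow, h2]

lemma five {m : ℕ} (hm : 5 ≤ m) : m + 3 ≤ 2 ^ (m - 2) := by
  induction m, hm using Nat.le_induction with
  | base => norm_num
  | succ m hm ih =>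
    have : m + 1 - 2 = m - 2 + 1 := by omega
    rw [this, pow_succ]
    omega

lemma silver {m : ℕ} (hm : 5 ≤ m) (hF : (Nat.fermatNumber m).Prime)
    {z : ZMod (Nat.fermatNumber m)} (hz : z ^ 4 = -1) : (1 + (z - z ^ 3)) ^ TT m = 1 := by
  have : Fact (Nat.fermatNumber m).Prime := ⟨hF⟩
  have hz8 : z ^ 8 = 1 := by
    have : z ^ 8 = (z ^ 4) ^ 2 := by ring
    rw [this, hz]
    ring
  have hz1 : z ≠ 1 := by
    rintro rfl
    rw [one_pow] at hz
    exact neg_one_ne_one hz.symm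
  have hz5 : -z ≠ 1 := by
    intro h
    have h2 : z = -1 := by linear_combination -h
    rw [h2] at hz
    apply neg_one_ne_one (m := m)
    rw [← hz]
    ring
  have h1 := cyc (i := m - 2) (j := 3) (by omega) (five hm) (by omega) hF
    (z := z) (by norm_num; exact hz8) hz1
  have h2 := cyc (i := m - 2) (j := 3) (by omega) (five hm) (by omega) hF
    (z := -z) (by norm_num; exact hz8) hz5
  obtain ⟨t, ht⟩ := eight_dvd_T (show 4 ≤ m by omega)
  have h3 : (-z ^ 2) ^ TT m = 1 := by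
    rw [ht, pow_mul]
    have : (-z ^ 2) ^ 8 = (z ^ 8) ^ 2 := by ring
    rw [this, hz8, one_pow, one_pow]
  have h4 : (1 + (z - z ^ 3)) * (1 - z) = (-z ^ 2) * (1 - -z) := by
    linear_combination hz
  have h5 := congrArg (· ^ TT m) h4
  beta_reduce at h5
  rw [mul_pow, mul_pow, h1, h2, h3] at h5
  simpa using h5

/-- the square roots of two -/
lemma sqrt_two {m : ℕ} (hm : 5 ≤ m) (hF : (Nat.fermatNumber m).Prime)
    {x : ZMod (Nat.fermatNumber m)} (hx : x ^ 2 = 2) : (1 + x) ^ TT m = 1 := by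
  have : Fact (Nat.fermatNumber m).Prime := ⟨hF⟩
  set z : ZMod (Nat.fermatNumber m) := 2 ^ (2 ^ (m - 2)) with hz0
  have hz : z ^ 4 = -1 := by
    rw [hz0, ← pow_mul, ← two_pow_neg m]
    congr 1
    rw [show (4 : ℕ) = 2 ^ 2 by norm_num, ← pow_add]
    congr 1
    omega
  have h1 : (x - (z - z ^ 3)) * (x + (z - z ^ 3)) = 0 := by
    linear_combination hx + (-z ^ 2 + 2) * hz
  rcases mul_eq_zero.mp h1 with h | h
  · have : x = z - z ^ 3 := by linear_combination h
    rw [this]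
    exact silver hm hF hz
  · have h2 : x = z ^ 3 - (z ^ 3) ^ 3 := by linear_combination h + (z ^ 5 - z) * hz
    rw [h2]
    apply silver hm hF
    have : (z ^ 3) ^ 4 = (z ^ 4) ^ 3 := by ring
    rw [this, hz]
    ring

/-- Pell numbers -/
def pell : ℕ → ℕ
  | 0 => 0
  | 1 => 1
  | n + 2 => 2 * pell (n + 1) + pell n

lemma pell_formula {R : Type} [CommRing R] {x : R} (hx : x ^ 2 = 2) (n : ℕ) :
    2 * x * (pell n : R) = (1 + x) ^ n - (1 - x) ^ n := by
  induction n using Nat.strong_induction_on with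
  | _ n ih =>
    match n with
    | 0 => simp [pell]
    | 1 => simp [pell]; ring
    | n + 2 =>
      have h1 := ih n (by omega)
      have h2 := ih (n + 1) (by omega)
      have h3 : (pell (n + 2) : R) = 2 * (pell (n + 1) : R) + (pell n : R) := by
        rw [pell]
        push_cast
        ring
      rw [h3]
      linear_combination 2 * h2 + h1 + ((1 - x) ^ n - (1 + x) ^ n) * hx

lemma pell_dvd {m : ℕ} (hm : 5 ≤ m) (hF : (Nat.fermatNumber m).Prime) :
    Nat.fermatNumber m ∣ pell (TT m) := by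
  have : Fact (Nat.fermatNumber m).Prime := ⟨hF⟩
  obtain ⟨x, hx⟩ : ∃ x : ZMod (Nat.fermatNumber m), x ^ 2 = 2 := by
    set z : ZMod (Nat.fermatNumber m) := 2 ^ (2 ^ (m - 2)) with hz0
    have hz : z ^ 4 = -1 := by
      rw [hz0, ← pow_mul, ← two_pow_neg m]
      congr 1
      rw [show (4 : ℕ) = 2 ^ 2 by norm_num, ← pow_add]
      congr 1
      omega
    exact ⟨z - z ^ 3, by linear_combination (z ^ 2 - 2) * hz⟩
  have h1 := pell_formula hx (TT m)
  have h2 := sqrt_two hm hF hx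
  have h3 := sqrt_two hm hF (x := -x) (by linear_combination hx)
  rw [← sub_eq_add_neg] at h3
  rw [h2, h3, sub_self] at h1
  have h2ne : (2 : ZMod (Nat.fermatNumber m)) ≠ 0 := by
    intro h
    have h4 := two_pow_neg m
    rw [h, zero_pow (by positivity)] at h4
    exact (neg_ne_zero.mpr one_ne_zero) h4.symm
  have hx0 : x ≠ 0 := by
    rintro rfl
    apply h2ne
    rw [← hx]
    ring
  rcases mul_eq_zero.mp h1 with h | h
  · exact absurd h (mul_ne_zero h2ne hx0)
  · rwa [ZMod.natCast_eq_zero_iff] at h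

lemma fermat_mul {m j : ℕ} :
    ((Nat.fermatNumber j : ℕ) : ZMod (Nat.fermatNumber m)) * (2 ^ (2 ^ j * 1) - 1) =
      2 ^ (2 ^ (j + 1) * 1) - 1 := by
  unfold Nat.fermatNumber
  push_cast
  rw [mul_one, mul_one, pow_succ 2 j, pow_mul]
  ring

/-- the base `F_j`, large `j` -/
lemma fermat_large {m j : ℕ} (hm : 4 ≤ m) (hj : m + 3 ≤ 2 ^ j) (hjm : j < m)
    (hF : (Nat.fermatNumber m).Prime) :
    ((Nat.fermatNumber j : ℕ) : ZMod (Nat.fermatNumber m)) ^ TT m = 1 := by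
  have h1 := large hm hj hjm.le odd_one hF
  have h0 : 2 ^ j ≤ 2 ^ (j + 1) := Nat.pow_le_pow_right (by norm_num) (by omega)
  have h2 := large hm (hj.trans h0) (by omega : j + 1 ≤ m) odd_one hF
  have h3 := congrArg (· ^ TT m) (fermat_mul (m := m) (j := j))
  beta_reduce at h3
  rw [mul_pow, h1, h2, mul_one] at h3
  exact h3

/-- the base `F_j`, small `j` -/
lemma fermat_small {m j : ℕ} (hm : 4 ≤ m) (hj1 : 1 ≤ j) (hj : 2 ^ j ≤ m + 2) :
    (Nat.fermatNumber m).Prime ↔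
      ((Nat.fermatNumber j : ℕ) : ZMod (Nat.fermatNumber m)) ^ (2 ^ (2 ^ m + 1 - 2 ^ j)) = -1 := by
  have hb := bound2 hm
  have hlt := T_lt m
  have h2j : 2 ≤ 2 ^ j := by
    calc 2 = 2 ^ 1 := by norm_num
      _ ≤ 2 ^ j := Nat.pow_le_pow_right (by norm_num) hj1
  constructor
  · intro hF
    have h1 := (crit hm hj1 hj odd_one).mp hF
    have h2 : ((2 : ZMod (Nat.fermatNumber m)) ^ (2 ^ (j + 1) * 1) - 1) ^
        (2 ^ (2 ^ m + 1 - 2 ^ j)) = 1 := by
      rcases Nat.lt_or_ge (m + 2) (2 ^ (j + 1)) with h3 | h3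
      · have hjm : j + 1 ≤ m := by
          by_contra h
          have h4 : 2 ^ m ≤ 2 ^ j := Nat.pow_le_pow_right (by norm_num) (by omega)
          have h5 := big m hm
          omega
        have h4 := large hm h3 hjm odd_one hF
        obtain ⟨c, hc⟩ : ∃ c, 2 ^ m + 1 - 2 ^ j = (2 ^ m - (m + 1)) + c :=
          Nat.exists_eq_add_of_le (by omega)
        rw [hc, pow_add 2 (2 ^ m - (m + 1)) c, pow_mul]
        unfold TT at h4
        rw [h4, one_pow]
      · have h4 := (crit hm (by omega : 1 ≤ j + 1) h3 odd_one).mp hF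
        have h5 : 2 ^ (j + 1) = 2 * 2 ^ j := by ring
        obtain ⟨c, hc⟩ : ∃ c, 2 ^ m + 1 - 2 ^ j = (2 ^ m + 1 - 2 ^ (j + 1)) + (c + 1) := by
          refine ⟨2 ^ j - 1, ?_⟩
          omega
        rw [hc, pow_add 2 (2 ^ m + 1 - 2 ^ (j + 1)) (c + 1), pow_mul, h4]
        apply Even.neg_one_pow
        rw [pow_succ]
        exact even_two.mul_left _
    have h3 := congrArg (· ^ (2 ^ (2 ^ m + 1 - 2 ^ j))) (fermat_mul (m := m) (j := j))
    beta_reduce at h3
    rw [mul_pow, h1, h2] at h3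
    linear_combination -h3
  · intro h
    exact prime_of_order (by omega) (by omega) h

end Pool.Agent.U976.Fer
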