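import Pool.Agent.U976.Fer.Levels

set_option autoImplicit false

namespace Pool.Agent.U976.Fer

open Pool.Agent.Y875.FP

/-- the corrections -/
def corr (m i s : ℕ) : ℤ :=
  if i = 1 then 2 ^ (m + 1) * (sgn m s 2 - sgn m s 1 + 2) else
    if i = 2 then 2 ^ (m + 1) else 0

lemma Lv_all {m i s : ℕ} (hm : 4 ≤ m) (hi1 : 1 ≤ i) (him : i ≤ m) (hs : Odd s)
    (hF : (Nat.fermatNumber m).Prime) : Lv m i s (corr m i s) := by
  by_cases h1 : i = 1
  · subst h1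
    have := Lv_one hm hs hF
    unfold corr
    rw [if_pos rfl]
    exact this
  · by_cases h2 : i = 2
    · subst h2
      have := Lv_two hm hs hF
      unfold corr
      rw [if_neg (by norm_num), if_pos rfl]
      exact this
    · unfold corr
      rw [if_neg h1, if_neg h2, Int.cast_zero]
      exact Lv_ge hm (by omega) him hs hF

lemma corr_dvd (m i s : ℕ) : ∃ c : ℤ, corr m i s = 2 ^ (m + 1) * c := by
  unfold corr
  split
  · exact ⟨_, rfl⟩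
  · split
    · exact ⟨1, by ring⟩
    · exact ⟨0, by ring⟩

/-- `x ≡ 0` modulo `4` gives a solution of `4 E ≡ x` -/
lemma exists_E {m : ℕ} {x : ℚ} (h : Cg 2 x 0) : ∃ E : ℕ, Cg (m + 3) (4 * (E : ℚ)) x := by
  obtain ⟨d, B, hd, h1⟩ := h
  have hcop : IsCoprime (d : ℤ) ((2 : ℤ) ^ (m + 1)) := by
    apply IsCoprime.pow_right
    obtain ⟨c, hc⟩ := hd
    exact ⟨1, -c, by rw [hc]; ring⟩
  obtain ⟨u, v, huv⟩ := hcop
  have hpos : (0 : ℤ) < 2 ^ (m + 1) := by positivity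
  have h2 : 0 ≤ (u * B) % 2 ^ (m + 1) := Int.emod_nonneg _ hpos.ne'
  obtain ⟨E, hE⟩ := Int.eq_ofNat_of_zero_le h2
  refine ⟨E, d, -(v * B) - d * ((u * B) / 2 ^ (m + 1)), hd, ?_⟩
  have h3 := Int.emod_add_mul_ediv (u * B) (2 ^ (m + 1))
  rw [hE] at h3
  set Q := (u * B) / 2 ^ (m + 1) with hQ
  have h4 : (E : ℚ) + 2 ^ (m + 1) * (Q : ℚ) = u * B := by exact_mod_cast h3
  have h5 : (u : ℚ) * d + v * 2 ^ (m + 1) = 1 := by exact_mod_cast huv
  have h6 : (2 : ℚ) ^ (m + 3) = 4 * 2 ^ (m + 1) := by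
    rw [show m + 3 = (m + 1) + 2 by ring, pow_add]
    ring
  rw [h6]
  push_cast
  rw [sub_zero] at h1
  linear_combination 4 * (d : ℚ) * h4 + 4 * (B : ℚ) * h5 - h1

lemma law_four {m i s : ℕ} (hm : 4 ≤ m) (hi1 : 1 ≤ i) (K : ℕ) :
    Cg 2 ((s : ℚ) * AA (m - i) (2 ^ 2 ^ i) s K + (corr m i s : ℤ)) 0 := by
  have h1 : Cg 2 (2 ^ 0 * AA (m - i) (2 ^ 2 ^ i) s K) 0 := by
    apply pAA_zero
    intro k hk v hv
    have h2 := v_le (by omega) hv
    have h3 : 2 ^ 1 * (k + 1) ≤ 2 ^ i * (k + 1) :=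
      Nat.mul_le_mul_right _ (Nat.pow_le_pow_right (by norm_num) hi1)
    omega
  have h2 := h1.zmul (s : ℤ)
  obtain ⟨c, hc⟩ := corr_dvd m i s
  have h3 : Cg 2 ((corr m i s : ℤ) : ℚ) ((0 : ℤ) : ℚ) := by
    apply Cg.int
    rw [hc, sub_zero]
    exact (pow_dvd_pow 2 (by omega)).mul_right _
  have h4 := h2.add h3
  push_cast at h4
  rw [pow_zero, one_mul, mul_zero, add_zero] at h4
  exact h4

/-- existence of the index -/
lemma exists_ind {m i s : ℕ} (hm : 4 ≤ m) (hi1 : 1 ≤ i) : ∃ E : ℕ,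
    Cg (m + 3) (4 * (E : ℚ)) ((s : ℚ) * AA (m - i) (2 ^ 2 ^ i) s (2 * m + 4) +
      (corr m i s : ℤ)) := exists_E (law_four hm hi1 _)

lemma two_pow_neg (m : ℕ) : (2 : ZMod (Nat.fermatNumber m)) ^ (2 ^ m) = -1 := by
  have h1 : ((Nat.fermatNumber m : ℕ) : ZMod (Nat.fermatNumber m)) = 0 := ZMod.natCast_self _
  unfold Nat.fermatNumber at h1 ⊢
  push_cast at h1
  linear_combination h1

lemma two_pow_one (m : ℕ) : (2 : ZMod (Nat.fermatNumber m)) ^ (2 ^ (m + 1)) = 1 := by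
  rw [pow_succ, pow_mul, two_pow_neg]
  ring

lemma two_pow_congr {m a b : ℕ} (h : a ≡ b [MOD 2 ^ (m + 1)]) :
    (2 : ZMod (Nat.fermatNumber m)) ^ a = 2 ^ b := by
  have h1 : ∀ a : ℕ, (2 : ZMod (Nat.fermatNumber m)) ^ a = 2 ^ (a % 2 ^ (m + 1)) := by
    intro a
    conv_lhs => rw [← Nat.mod_add_div a (2 ^ (m + 1))]
    rw [pow_add, pow_mul, two_pow_one, one_pow, mul_one]
  rw [h1 a, h1 b, h]

/-- the index law -/
theorem law {m i s E : ℕ} (hm : 4 ≤ m) (hi1 : 1 ≤ i) (him : i ≤ m) (hs : Odd s)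
    (hE : Cg (m + 3) (4 * (E : ℚ)) ((s : ℚ) * AA (m - i) (2 ^ 2 ^ i) s (2 * m + 4) +
      (corr m i s : ℤ)))
    (hF : (Nat.fermatNumber m).Prime) :
    ((2 : ZMod (Nat.fermatNumber m)) ^ (2 ^ i * s) - 1) ^ TT m = 2 ^ E := by
  obtain ⟨E', hE', hC⟩ := Lv_all hm hi1 him hs hF
  rw [hE']
  apply two_pow_congr
  have h1 := (hC (2 * m + 4) le_rfl).trans hE.symm
  have h2 : Cg (m + 3) (((4 * E' : ℤ)) : ℚ) (((4 * E : ℤ)) : ℚ) := by
    push_cast
    exact h1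
  rw [Cg.int_iff] at h2
  obtain ⟨n, hn⟩ := h2
  rw [Nat.modEq_iff_dvd]
  refine ⟨-n, ?_⟩
  have h6 : (2 : ℤ) ^ (m + 3) = 4 * 2 ^ (m + 1) := by
    rw [show m + 3 = (m + 1) + 2 by ring, pow_add]
    ring
  rw [h6] at hn
  push_cast
  linarith

/-- small levels: the exact power of two in the index -/
lemma small {m i s : ℕ} (hm : 4 ≤ m) (hi1 : 1 ≤ i) (hi : 2 ^ i ≤ m + 2) (hs : Odd s)
    (hF : (Nat.fermatNumber m).Prime) : ∃ w : ℕ, Odd w ∧
    ((2 : ZMod (Nat.fermatNumber m)) ^ (2 ^ i * s) - 1) ^ TT m = 2 ^ (2 ^ (2 ^ i - 2) * w) := by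
  have him : i ≤ m := by
    have h1 := big m hm
    have h2 : 2 ^ i ≤ 2 ^ m := by omega
    exact (Nat.pow_le_pow_iff_right (by norm_num)).mp h2
  obtain ⟨E, hE, hC⟩ := Lv_all hm hi1 him hs hF
  have h2i : 2 ≤ 2 ^ i := by
    calc 2 = 2 ^ 1 := by norm_num
      _ ≤ 2 ^ i := Nat.pow_le_pow_right (by norm_num) hi1
  have h1 := (hC (2 * m + 3 + 1) (by omega)).mono (show 2 ^ i + 1 ≤ m + 3 by omega)
  have h2 : Cg (2 ^ i + 1) (2 ^ 0 * AA (m - i) (2 ^ 2 ^ i) s (2 * m + 3 + 1))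
      (2 ^ (0 + 2 ^ i) * (sgn (m - i) s 1 : ℚ)) := by
    apply pAA_first
    intro k hk v hv
    have h3 := v_le (by omega) hv
    have h4 : 2 ^ i * (k + 2) = 2 ^ i + 2 ^ i * (k + 1) := by ring
    have h5 : 2 * (k + 1) ≤ 2 ^ i * (k + 1) := Nat.mul_le_mul_right _ h2i
    rw [h4]
    omega
  have h3 := h2.zmul (s : ℤ)
  obtain ⟨c, hc⟩ := corr_dvd m i s
  have hcz : Cg (2 ^ i + 1) ((corr m i s : ℤ) : ℚ) ((0 : ℤ) : ℚ) := by
    apply Cg.int
    rw [sub_zero]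
    by_cases h4 : i = 1 ∨ i = 2
    · rw [hc]
      refine (pow_dvd_pow 2 ?_).mul_right _
      rcases h4 with rfl | rfl <;> omega
    · have h5 : corr m i s = 0 := by
        unfold corr
        rw [if_neg (by tauto), if_neg (by tauto)]
      rw [h5]
      exact dvd_zero _
  have h4 := h3.add hcz
  obtain ⟨a, ha⟩ := sgn_odd (m - i) s 1
  obtain ⟨b, hb⟩ := hs
  have h5 : Cg (2 ^ i + 1) (((4 * E : ℤ)) : ℚ) ((2 ^ (2 ^ i) : ℤ) : ℚ) := by
    have h6 : Cg (2 ^ i + 1) (((s : ℤ) * (2 ^ (2 ^ i) * sgn (m - i) s 1) : ℤ) : ℚ)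
        ((2 ^ (2 ^ i) : ℤ) : ℚ) := by
      apply Cg.int
      refine ⟨b * (2 * a + 1) + a, ?_⟩
      rw [ha, hb, pow_succ]
      push_cast
      ring
    refine Cg.trans ?_ h6
    refine Cg.trans ?_ (h4.trans (Cg.of_eq ?_))
    · refine (Cg.of_eq ?_).trans (h1.trans (Cg.of_eq ?_))
      · push_cast
        ring
      · push_cast
        ring
    · push_cast
      rw [zero_add]
      ring
  rw [Cg.int_iff] at h5
  obtain ⟨n, hn⟩ := h5
  -- `4 E = 2^(2^i) (1 + 2 n)`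
  obtain ⟨g, hg⟩ := Nat.exists_eq_add_of_le h2i
  have h6 : (E : ℤ) = 2 ^ g * (1 + 2 * n) := by
    rw [hg, pow_succ, pow_add] at hn
    linarith
  have h7 : 0 ≤ 1 + 2 * n := by
    by_contra hneg
    have h8 : (2 : ℤ) ^ g * (1 + 2 * n) < 0 := mul_neg_of_pos_of_neg (by positivity) (by omega)
    omega
  obtain ⟨w, hw⟩ := Int.eq_ofNat_of_zero_le h7
  refine ⟨w, ?_, ?_⟩
  · rw [Nat.odd_iff]
    omega
  · rw [hE]
    congr 1
    have h9 : 2 ^ i - 2 = g := by omega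
    rw [h9]
    rw [hw] at h6
    exact_mod_cast h6

/-- large levels: `2 ^ (2^i s) - 1` is a `2^(m+1)`-th power residue -/
lemma large {m i s : ℕ} (hm : 4 ≤ m) (hi : m + 3 ≤ 2 ^ i) (him : i ≤ m) (hs : Odd s)
    (hF : (Nat.fermatNumber m).Prime) :
    ((2 : ZMod (Nat.fermatNumber m)) ^ (2 ^ i * s) - 1) ^ TT m = 1 := by
  have hi3 : 3 ≤ i := by
    by_contra h
    have h1 : 2 ^ i ≤ 2 ^ 2 := Nat.pow_le_pow_right (by norm_num) (by omega)
    omega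
  obtain ⟨E, hE, hC⟩ := Lv_ge hm hi3 him hs hF
  have h1 := hC (2 * m + 4) le_rfl
  have h2 : Cg (m + 3) (2 ^ 0 * AA (m - i) (2 ^ 2 ^ i) s (2 * m + 4)) 0 := by
    apply pAA_zero
    intro k hk v hv
    have h3 := v_le (by omega) hv
    have h5 : (m + 3) * (k + 1) ≤ 2 ^ i * (k + 1) := Nat.mul_le_mul_right _ hi
    have h6 : m + 3 + k ≤ (m + 3) * (k + 1) := by nlinarith
    omega
  have h3 := h2.zmul (s : ℤ)
  have h5 : Cg (m + 3) (((4 * E : ℤ)) : ℚ) ((0 : ℤ) : ℚ) := by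
    refine (Cg.of_eq ?_).trans (h1.trans ((Cg.of_eq ?_).trans (h3.trans (Cg.of_eq ?_))))
    · push_cast
      ring
    · push_cast
      ring
    · push_cast
      ring
  rw [Cg.int_iff] at h5
  obtain ⟨n, hn⟩ := h5
  rw [hE]
  have h6 : (2 : ℤ) ^ (m + 3) = 4 * 2 ^ (m + 1) := by
    rw [show m + 3 = (m + 1) + 2 by ring, pow_add]
    ring
  have h7 : E ≡ 0 [MOD 2 ^ (m + 1)] := by
    apply Nat.ModEq.symm
    rw [Nat.modEq_iff_dvd]
    refine ⟨n, ?_⟩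
    rw [h6] at hn
    push_cast
    linarith
  rw [two_pow_congr h7, pow_zero]

/-- the general converse -/
lemma prime_of_order {m n : ℕ} (hm : 1 ≤ m) (hn : 2 ^ (m - 1) ≤ n) {a : ZMod (Nat.fermatNumber m)}
    (h : a ^ (2 ^ n) = -1) : (Nat.fermatNumber m).Prime := by
  by_contra hnp
  have hF3 := Nat.three_le_fermatNumber m
  have hp : (Nat.minFac (Nat.fermatNumber m)).Prime := Nat.minFac_prime (by omega)
  have hsq := Nat.minFac_sq_le_self (by omega) hnp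
  have hdvd := Nat.minFac_dvd (Nat.fermatNumber m)
  set p := Nat.minFac (Nat.fermatNumber m) with hpdef
  have : Fact p.Prime := ⟨hp⟩
  set b : ZMod p := ZMod.castHom hdvd (ZMod p) a with hb
  have h' : b ^ (2 ^ n) = -1 := by
    have h1 := congrArg (ZMod.castHom hdvd (ZMod p)) h
    rw [map_pow, map_neg, map_one] at h1
    exact h1
  have hord : orderOf b = 2 ^ (n + 1) := by
    apply orderOf_eq_prime_pow
    · rw [h']
      have : Fact (2 < p) := ⟨by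
        have h5 := hp.two_le
        rcases Nat.lt_or_ge 2 p with h6 | h6
        · exact h6
        · exfalso
          have h7 : p = 2 := le_antisymm h6 h5
          rw [h7] at hdvd
          exact (Nat.not_even_iff_odd.mpr (Nat.odd_fermatNumber m))
            (even_iff_two_dvd.mpr hdvd)⟩
      exact ZMod.neg_one_ne_one
    · rw [pow_succ, pow_mul, h']
      ring
  have hb0 : b ≠ 0 := by
    intro h5
    rw [h5, zero_pow (by positivity)] at h'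
    exact (neg_ne_zero.mpr one_ne_zero) h'.symm
  have hdvd2 : orderOf b ∣ p - 1 := ZMod.orderOf_dvd_card_sub_one hb0
  rw [hord] at hdvd2
  have hle := Nat.le_of_dvd (by have := hp.two_le; omega) hdvd2
  have hlt : 2 ^ (2 ^ (m - 1) + 1) < p := by
    have h5 : 2 ^ (2 ^ (m - 1) + 1) ≤ 2 ^ (n + 1) :=
      Nat.pow_le_pow_right (by norm_num) (by omega)
    have := hp.two_le
    omega
  have h8 : (2 ^ (2 ^ (m - 1) + 1)) ^ 2 < p ^ 2 := Nat.pow_lt_pow_left hlt (by norm_num)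
  have h9 : (2 ^ (2 ^ (m - 1) + 1)) ^ 2 = 4 * 2 ^ (2 ^ m) := by
    obtain ⟨c, rfl⟩ := Nat.exists_eq_add_of_le hm
    have : 1 + c - 1 = c := by omega
    rw [this, ← pow_mul, add_mul, pow_add, pow_add]
    have e1 : 2 ^ c * 2 = 2 ^ 1 * 2 ^ c := by ring
    rw [e1]
    ring
  have h10 : p ^ 2 ≤ 2 ^ (2 ^ m) + 1 := hsq
  have h11 : 0 < 2 ^ (2 ^ m) := by positivity
  omega

lemma bound2 {m : ℕ} (hm : 4 ≤ m) : 2 ^ (m - 1) + m + 2 ≤ 2 ^ m := by
  have h1 := big m hm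
  have h2 : 2 ^ m = 2 * 2 ^ (m - 1) := by
    rw [← pow_succ']
    congr 1
    omega
  omega

/-- the criterion in the bases `2^s - 1` -/
theorem crit {m i s : ℕ} (hm : 4 ≤ m) (hi1 : 1 ≤ i) (hi : 2 ^ i ≤ m + 2) (hs : Odd s) :
    (Nat.fermatNumber m).Prime ↔
      ((2 : ZMod (Nat.fermatNumber m)) ^ (2 ^ i * s) - 1) ^ (2 ^ (2 ^ m + 1 - 2 ^ i)) = -1 := by
  have hb := bound2 hm
  have h2i : 2 ≤ 2 ^ i := by
    calc 2 = 2 ^ 1 := by norm_num
      _ ≤ 2 ^ i := Nat.pow_le_pow_right (by norm_num) hi1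
  constructor
  · intro hF
    obtain ⟨w, hw, h⟩ := small hm hi1 hi hs hF
    have h1 := congrArg (· ^ (2 ^ (m + 2 - 2 ^ i))) h
    beta_reduce at h1
    unfold TT at h1
    rw [← pow_mul, ← pow_add, ← pow_mul] at h1
    have e1 : 2 ^ m - (m + 1) + (m + 2 - 2 ^ i) = 2 ^ m + 1 - 2 ^ i := by
      have g1 : m + 1 ≤ 2 ^ m := Nat.lt_two_pow_self
      clear h1 h hb
      generalize 2 ^ m = Y at g1 ⊢
      generalize 2 ^ i = X at hi h2i ⊢
      omega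
    have e2 : 2 ^ (2 ^ i - 2) * w * 2 ^ (m + 2 - 2 ^ i) = 2 ^ m * w := by
      have h5 : 2 ^ m = 2 ^ (2 ^ i - 2) * 2 ^ (m + 2 - 2 ^ i) := by
        rw [← pow_add]
        congr 1
        omega
      rw [h5]
      ring
    rw [e1, e2, pow_mul 2 (2 ^ m) w, two_pow_neg, hw.neg_one_pow] at h1
    exact h1
  · intro h
    exact prime_of_order (by omega) (by omega) h

end Pool.Agent.U976.Fer
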