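import Pool.Agent.U976.Fer.Lv

set_option autoImplicit false

namespace Pool.Agent.U976.Fer

open Pool.Agent.Y875.FP

lemma v_le {v k : ℕ} (hk : 0 < k) (h : 2 ^ v ∣ k) : v + 1 ≤ k := by
  have h1 := Nat.le_of_dvd hk h
  have h2 : v < 2 ^ v := Nat.lt_two_pow_self
  omega

lemma sgn_odd (n s k : ℕ) : ∃ c : ℤ, sgn n s k = 2 * c + 1 := by
  unfold sgn
  split
  · exact ⟨0, by norm_num⟩
  · exact ⟨-1, by norm_num⟩

/-- correction of level one -/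
def c1 (m s : ℕ) : ℤ := 2 ^ (m + 1) * (sgn m s 2 - sgn m s 1 + 2)

lemma pow_two_dvd_one {m i : ℕ} : (2 : ℤ) ^ (m + 3) = 2 ^ m * 8 := by
  rw [pow_add]; norm_num

lemma Lv_one {m s : ℕ} (hm : 4 ≤ m) (hs : Odd s) (hF : (Nat.fermatNumber m).Prime) :
    Lv m 1 s (c1 m s) := by
  have hs2 : Odd (s + 2 ^ (m - 0)) := hs.add_even (by
    apply Even.pow_of_ne_zero even_two; omega)
  apply Lv_step hm (by omega) hs (Lv_zero hm hs hF) (Lv_zero hm hs2 hF)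
  intro K hK
  obtain ⟨k, rfl⟩ := Nat.exists_eq_add_of_le (show 2 ≤ K by omega)
  have h1 : Cg (m + 3) (2 ^ (m - 1) * AA (m - 1) (2 ^ 2) s (k + 2))
      (2 ^ (m - 1) * (2 ^ 2) ^ 2 / 2 * (sgn (m - 1) s 2 : ℚ) +
        2 ^ (m - 1 + 2) * (sgn (m - 1) s 1 : ℚ)) := by
    apply pAA_two
    intro j hj v hv
    have := v_le (by omega) hv
    omega
  have h2 : Cg (m + 3) (2 ^ m * SO m (2 ^ 1) s (k + 1 + 1)) (2 ^ (m + 1) * (sgn m s 1 : ℚ)) := by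
    apply pSO_first
    intro l hl
    omega
  have h3 := h1.sub h2
  have e0 : m - 0 = m := Nat.sub_zero m
  have e1 : ((2 ^ 2 ^ 0) ^ 2 : ℕ) = 2 ^ 2 := by norm_num
  have e2 : (2 ^ 2 ^ 0 : ℕ) = 2 ^ 1 := by norm_num
  have e3 : 2 + k = k + 2 := add_comm _ _
  have e4 : k + 1 + 1 = k + 2 := rfl
  rw [e4] at h2 h3
  rw [e0, e1, e2, e3]
  refine (Cg.of_eq ?_).trans (h3.trans ?_)
  · ring
  have s1 : sgn (m - 1) s 1 = sgn m s 2 := by
    rw [← sgn_double (l := 1) (by omega) hs]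
  rw [s1]
  obtain ⟨c, hc⟩ := sgn_odd (m - 1) s 2
  have e5 : (2 ^ (m - 1) * (2 ^ 2) ^ 2 / 2 : ℚ) = 2 ^ (m + 2) := by
    obtain ⟨a, rfl⟩ := Nat.exists_eq_add_of_le (show 1 ≤ m by omega)
    have : 1 + a - 1 = a := by omega
    rw [this, pow_add, pow_add]
    ring
  have e6 : m - 1 + 2 = m + 1 := by omega
  rw [e5, e6, hc]
  have h4 : (2 : ℤ) ^ (m + 3) ∣ (2 ^ (m + 2) * (2 * c + 1) + 2 ^ (m + 1) * sgn m s 2 -
      2 ^ (m + 1) * sgn m s 1) - c1 m s := by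
    refine ⟨c, ?_⟩
    unfold c1
    rw [pow_add, pow_add, pow_add]
    ring
  have h5 := Cg.int h4
  refine (Cg.of_eq ?_).trans h5
  push_cast
  ring

lemma Lv_two {m s : ℕ} (hm : 4 ≤ m) (hs : Odd s) (hF : (Nat.fermatNumber m).Prime) :
    Lv m 2 s ((2 : ℤ) ^ (m + 1) : ℤ) := by
  have hs2 : Odd (s + 2 ^ (m - 1)) := hs.add_even (by
    apply Even.pow_of_ne_zero even_two; omega)
  apply Lv_step hm (by omega) hs (Lv_one hm hs hF) (Lv_one hm hs2 hF)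
  intro K hK
  obtain ⟨k, rfl⟩ := Nat.exists_eq_add_of_le (show 1 ≤ K by omega)
  have h1 : Cg (m + 3) (2 ^ (m - 2) * AA (m - 2) (2 ^ 4) s (k + 1))
      (2 ^ (m - 2 + 4) * (sgn (m - 2) s 1 : ℚ)) := by
    apply pAA_first
    intro j hj v hv
    have := v_le (by omega) hv
    omega
  have h2 : Cg (m + 3) (2 ^ (m - 1) * SO (m - 1) (2 ^ 2) s (k + 1))
      (2 ^ (m - 1 + 2) * (sgn (m - 1) s 1 : ℚ)) := by
    apply pSO_first
    intro l hl
    omega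
  have h3 := h1.sub h2
  have e0 : m - 1 - 1 = m - 2 := by omega
  have e1 : ((2 ^ 2 ^ 1) ^ 2 : ℕ) = 2 ^ 4 := by norm_num
  have e2 : (2 ^ 2 ^ 1 : ℕ) = 2 ^ 2 := by norm_num
  have e3 : 1 + k = k + 1 := add_comm _ _
  rw [e0, e1, e2, e3]
  refine ((Cg.refl (m + 3) (((c1 m s : ℤ) : ℚ) + ((c1 m (s + 2 ^ (m - 1)) : ℤ) : ℚ))).add
    h3).trans ?_
  have s1 : sgn (m - 1) s 1 = sgn m s 2 := by
    rw [← sgn_double (l := 1) (by omega) hs]
  have s2 : sgn m (s + 2 ^ (m - 1)) 2 = - sgn m s 2 := by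
    rw [← s1, ← sgn_shift_odd (n := m - 1) (by omega) hs odd_one,
      ← sgn_double (l := 1) (by omega) hs2]
  obtain ⟨q, hq⟩ := sgn_quadrant hm hs
  obtain ⟨c, hc⟩ := sgn_odd (m - 2) s 1
  have e6 : m - 1 + 2 = m + 1 := by omega
  have e7 : m - 2 + 4 = m + 2 := by omega
  rw [s1, e6, e7, hc]
  have h4 : (2 : ℤ) ^ (m + 3) ∣ (c1 m s + c1 m (s + 2 ^ (m - 1)) +
      (2 ^ (m + 2) * (2 * c + 1) - 2 ^ (m + 1) * sgn m s 2)) - 2 ^ (m + 1) := by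
    refine ⟨c - q + 1, ?_⟩
    unfold c1
    rw [s2, pow_add, pow_add, pow_add]
    linear_combination (-(2 : ℤ) ^ m * 2) * hq
  have h5 := Cg.int h4
  refine (Cg.of_eq ?_).trans h5
  push_cast
  ring

lemma Lv_three {m s : ℕ} (hm : 4 ≤ m) (hs : Odd s) (hF : (Nat.fermatNumber m).Prime) :
    Lv m 3 s 0 := by
  have hs2 : Odd (s + 2 ^ (m - 2)) := hs.add_even (by
    apply Even.pow_of_ne_zero even_two; omega)
  apply Lv_step hm (by omega) hs (Lv_two hm hs hF) (Lv_two hm hs2 hF)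
  intro K hK
  obtain ⟨k, rfl⟩ := Nat.exists_eq_add_of_le (show 1 ≤ K by omega)
  have h1 : Cg (m + 3) (2 ^ (m - 3) * AA (m - 3) (2 ^ 8) s (k + 1)) 0 := by
    apply pAA_zero
    intro j hj v hv
    have := v_le (by omega) hv
    omega
  have h2 : Cg (m + 3) (2 ^ (m - 2) * SO (m - 2) (2 ^ 4) s (k + 1))
      (2 ^ (m - 2 + 4) * (sgn (m - 2) s 1 : ℚ)) := by
    apply pSO_first
    intro l hl
    omega
  have h3 := h1.sub h2
  have e0 : m - 2 - 1 = m - 3 := by omega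
  have e1 : ((2 ^ 2 ^ 2) ^ 2 : ℕ) = 2 ^ 8 := by norm_num
  have e2 : (2 ^ 2 ^ 2 : ℕ) = 2 ^ 4 := by norm_num
  have e3 : 1 + k = k + 1 := add_comm _ _
  rw [e0, e1, e2, e3]
  refine ((Cg.refl (m + 3) ((((2 : ℤ) ^ (m + 1) : ℤ) : ℚ) + (((2 : ℤ) ^ (m + 1) : ℤ) : ℚ))).add
    h3).trans ?_
  obtain ⟨c, hc⟩ := sgn_odd (m - 2) s 1
  have e7 : m - 2 + 4 = m + 2 := by omega
  rw [e7, hc]
  have h4 : (2 : ℤ) ^ (m + 3) ∣ (2 ^ (m + 1) + 2 ^ (m + 1) +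
      (0 - 2 ^ (m + 2) * (2 * c + 1))) - 0 := by
    refine ⟨- c, ?_⟩
    rw [pow_add, pow_add, pow_add]
    ring
  have h5 := Cg.int h4
  rw [Int.cast_zero] at h5
  refine (Cg.of_eq ?_).trans h5
  push_cast
  ring

lemma Lv_ge {m i s : ℕ} (hm : 4 ≤ m) (hi3 : 3 ≤ i) (him : i ≤ m) (hs : Odd s)
    (hF : (Nat.fermatNumber m).Prime) : Lv m i s 0 := by
  induction i, hi3 using Nat.le_induction generalizing s with
  | base => exact Lv_three hm hs hF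
  | succ i hi3 ih =>
    have hs2 : Odd (s + 2 ^ (m - i)) := hs.add_even (by
      apply Even.pow_of_ne_zero even_two; omega)
    apply Lv_step hm him hs (ih (by omega) hs) (ih (by omega) hs2)
    intro K hK
    have hi : i < 2 ^ i := Nat.lt_two_pow_self
    have h8 : i + 3 ≤ 2 ^ i := by
      obtain ⟨c, rfl⟩ := Nat.exists_eq_add_of_le hi3
      have : c < 2 ^ c := Nat.lt_two_pow_self
      rw [pow_add]
      omega
    have hx : (2 ^ 2 ^ i) ^ 2 = (2 ^ 2 ^ (i + 1) : ℕ) := by rw [← pow_mul, ← pow_succ]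
    have h1 : Cg (m + 3) (2 ^ (m - i - 1) * AA (m - i - 1) (2 ^ 2 ^ (i + 1)) s K) 0 := by
      apply pAA_zero
      intro j hj v hv
      have h9 := v_le (by omega) hv
      have h10 : 2 ^ (i + 1) * (j + 1) = 2 ^ i * (2 * j + 2) := by rw [pow_succ]; ring
      have h11 : (i + 3) * (2 * j + 2) ≤ 2 ^ i * (2 * j + 2) := Nat.mul_le_mul_right _ h8
      have h12 : i + 4 + j ≤ (i + 3) * (2 * j + 2) := by nlinarith
      rw [h10]
      omega
    have h2 : Cg (m + 3) (2 ^ (m - i) * SO (m - i) (2 ^ 2 ^ i) s K) 0 := by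
      apply pSO_zero
      intro l hl
      have h11 : (i + 3) * (2 * l + 1) ≤ 2 ^ i * (2 * l + 1) := Nat.mul_le_mul_right _ h8
      have h12 : i + 3 ≤ (i + 3) * (2 * l + 1) := Nat.le_mul_of_pos_right _ (by omega)
      omega
    have h3 := h1.sub h2
    rw [hx]
    simpa using h3

end Pool.Agent.U976.Fer
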