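import Pool.Agent.U976.Fer.Sgn

set_option autoImplicit false

namespace Pool.Agent.U976.Fer

open Pool.Agent.Y875.FP

/-- `(F_m - 1) / 2^(m+1)` -/
def TT (m : ℕ) : ℕ := 2 ^ (2 ^ m - (m + 1))

lemma big (m : ℕ) (hm : 4 ≤ m) : 2 * m + 4 < 2 ^ m := by
  induction m, hm using Nat.le_induction with
  | base => norm_num
  | succ m hm ih => rw [pow_succ]; omega

/-- The law of level `i` for the odd number `s`, with correction `c`. -/
def Lv (m i s : ℕ) (c : ℚ) : Prop :=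
  ∃ E : ℕ, ((2 : ZMod (Nat.fermatNumber m)) ^ (2 ^ i * s) - 1) ^ TT m = 2 ^ E ∧
    ∀ K : ℕ, 2 * m + 4 ≤ K →
      Cg (m + 3) (4 * (E : ℚ)) ((s : ℚ) * AA (m - i) (2 ^ 2 ^ i) s K + c)

/-- the terms beyond `2 m + 4` are negligible -/
lemma AA_tail {m n b s K : ℕ} (hb : 1 ≤ b) (hK : 2 * m + 4 ≤ K) :
    Cg (m + 3) (AA n (2 ^ b) s K) (AA n (2 ^ b) s (2 * m + 4)) := by
  obtain ⟨c, rfl⟩ := Nat.exists_eq_add_of_le hK
  induction c with
  | zero => exact Cg.refl _ _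
  | succ c ih =>
    have h1 : AA n (2 ^ b) s (2 * m + 4 + (c + 1)) = AA n (2 ^ b) s (2 * m + 4 + c) +
        (sgn n s (2 * m + 4 + c + 1) : ℚ) *
          (((2 ^ b : ℕ) : ℚ) ^ (2 * m + 4 + c + 1) / ((2 * m + 4 + c + 1 : ℕ) : ℚ)) := by
      unfold AA
      rw [← add_assoc, Finset.sum_range_succ]
    rw [h1]
    have h2 : Cg (m + 3) ((2 : ℚ) ^ 0 * (((2 ^ b : ℕ) : ℚ) ^ (2 * m + 4 + c + 1) /
        ((2 * m + 4 + c + 1 : ℕ) : ℚ))) 0 := by
      apply term_zero (by omega)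
      intro v hv
      obtain ⟨e, o, ho, he⟩ := Nat.exists_eq_two_pow_mul_odd
        (show 2 * m + 4 + c + 1 ≠ 0 by omega)
      have h3 : v ≤ e := by
        rw [he] at hv
        have hcop : Nat.Coprime (2 ^ v) o := by
          apply Nat.Coprime.pow_left
          rw [Nat.coprime_two_left]
          exact ho
        exact (Nat.pow_dvd_pow_iff_le_right (by norm_num)).mp (hcop.dvd_of_dvd_mul_right hv)
      have h4 := prec_two (m := m) (e := e) ho (by omega)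
      rw [Nat.pow_dvd_pow_iff_le_right (by norm_num)] at h4
      have h5 : 2 ^ e * o ≤ b * (2 ^ e * o) := Nat.le_mul_of_pos_left _ hb
      rw [← he] at h4 h5
      omega
    have h6 := (ih (by omega)).add (h2.zmul (sgn n s (2 * m + 4 + c + 1)))
    simpa using h6

/-- the level zero -/
lemma Lv_zero {m s : ℕ} (hm : 4 ≤ m) (hs : Odd s) (hF : (Nat.fermatNumber m).Prime) :
    Lv m 0 s 0 := by
  obtain ⟨E, hE⟩ := exists_isInd m s (2 * m + 2)
  refine ⟨E, ?_, ?_⟩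
  · rw [pow_zero, one_mul]
    exact mersenne_index hm hs hE hF
  · intro K hK
    obtain ⟨d, n, hd, h⟩ := hE
    have h1 : Cg (m + 3) (4 * (E : ℚ)) ((s : ℚ) * AA m 2 s (2 * m + 4)) := ⟨d, n, hd, h⟩
    have h2 := ((AA_tail (m := m) (n := m) (b := 1) (s := s) le_rfl hK).symm).zmul (s : ℤ)
    rw [pow_zero, pow_one, Nat.sub_zero, add_zero]
    rw [pow_one] at h2
    exact h1.trans (by simpa using h2)

/-- one step -/
lemma Lv_step {m i s : ℕ} {c1 c2 c : ℚ} (hm : 4 ≤ m) (hi : i + 1 ≤ m) (hs : Odd s)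
    (h1 : Lv m i s c1) (h2 : Lv m i (s + 2 ^ (m - i)) c2)
    (hc : ∀ K : ℕ, 2 * m + 4 ≤ K → Cg (m + 3)
      (c1 + c2 + (2 ^ (m - i - 1) * AA (m - i - 1) ((2 ^ 2 ^ i) ^ 2) s K -
        2 ^ (m - i) * SO (m - i) (2 ^ 2 ^ i) s K)) c) :
    Lv m (i + 1) s c := by
  obtain ⟨E1, hE1, hC1⟩ := h1
  obtain ⟨E2, hE2, hC2⟩ := h2
  have hx : (2 ^ 2 ^ (i + 1) : ℕ) = (2 ^ 2 ^ i) ^ 2 := by rw [← pow_mul, ← pow_succ]
  refine ⟨E1 + E2, ?_, ?_⟩
  · have hb := big m hm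
    have e1 : (2 : ZMod (Nat.fermatNumber m)) ^ (2 ^ m) = -1 := by
      have h1 := xpow (m := m) (p := Nat.fermatNumber m) (x := 2) rfl
      push_cast at h1
      exact h1
    have e2 : (2 : ZMod (Nat.fermatNumber m)) ^ (2 ^ i * (s + 2 ^ (m - i))) =
        - 2 ^ (2 ^ i * s) := by
      have : 2 ^ i * (s + 2 ^ (m - i)) = 2 ^ i * s + 2 ^ m := by
        rw [mul_add, ← pow_add]
        congr 2
        omega
      rw [this, pow_add, e1]
      ring
    have e3 : (2 : ZMod (Nat.fermatNumber m)) ^ (2 ^ (i + 1) * s) = (2 ^ (2 ^ i * s)) ^ 2 := by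
      rw [← pow_mul]
      congr 1
      ring
    rw [e2] at hE2
    rw [e3, pow_add, ← hE1, ← hE2, ← mul_pow]
    set y : ZMod (Nat.fermatNumber m) := 2 ^ (2 ^ i * s) with hy
    have e4 : y ^ 2 - 1 = - ((y - 1) * (-y - 1)) := by ring
    rw [e4]
    apply Even.neg_pow
    unfold TT
    apply Even.pow_of_ne_zero even_two
    omega
  · intro K hK
    have h3 := (hC1 (2 * K) (by omega)).add (hC2 (2 * K) (by omega))
    have h4 := pair_identity (n := m - i) (x := 2 ^ 2 ^ i) (by omega) hs K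
    have h5 : m - (i + 1) = m - i - 1 := by omega
    rw [h5, hx]
    have h6 := ((Cg.refl (m + 3) ((s : ℚ) * AA (m - i - 1) ((2 ^ 2 ^ i) ^ 2) s K)).add (hc K hK))
    have e6 : ((s : ℚ) * AA (m - i) (2 ^ 2 ^ i) s (2 * K) + c1) +
        (((s + 2 ^ (m - i) : ℕ) : ℚ) * AA (m - i) (2 ^ 2 ^ i) (s + 2 ^ (m - i)) (2 * K) + c2) =
        (s : ℚ) * AA (m - i - 1) ((2 ^ 2 ^ i) ^ 2) s K +
        (c1 + c2 + (2 ^ (m - i - 1) * AA (m - i - 1) ((2 ^ 2 ^ i) ^ 2) s K -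
          2 ^ (m - i) * SO (m - i) (2 ^ 2 ^ i) s K)) := by
      linear_combination h4
    have h7 := (h3.trans (Cg.of_eq e6)).trans h6
    have e5 : (4 : ℚ) * ((E1 + E2 : ℕ) : ℚ) = 4 * (E1 : ℚ) + 4 * (E2 : ℚ) := by
      push_cast
      ring
    rw [e5]
    exact h7

/-- a multiple of the series which is negligible -/
lemma pAA_zero {M a b n s K : ℕ} (h : ∀ k < K, ∀ v, 2 ^ v ∣ k + 1 → M + v ≤ a + b * (k + 1)) :
    Cg M (2 ^ a * AA n (2 ^ b) s K) 0 := by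
  unfold AA
  rw [Finset.mul_sum]
  apply Cg.sum_zero
  intro k hk
  have h1 := (term_zero (M := M) (a := a) (b := b) (k := k + 1) (by omega) (h k hk)).zmul
    (sgn n s (k + 1))
  rw [mul_zero] at h1
  refine (Cg.of_eq ?_).trans h1
  ring

/-- a multiple of the series in which only the first term matters -/
lemma pAA_first {M a b n s K : ℕ}
    (h : ∀ k < K, ∀ v, 2 ^ v ∣ k + 2 → M + v ≤ a + b * (k + 2)) :
    Cg M (2 ^ a * AA n (2 ^ b) s (K + 1)) (2 ^ (a + b) * (sgn n s 1 : ℚ)) := by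
  unfold AA
  rw [Finset.sum_range_succ', mul_add, Finset.mul_sum]
  have h0 : Cg M (∑ k ∈ Finset.range K, (2 : ℚ) ^ a * ((sgn n s (k + 1 + 1) : ℚ) *
      (((2 ^ b : ℕ) : ℚ) ^ (k + 1 + 1) / ((k + 1 + 1 : ℕ) : ℚ)))) 0 := by
    apply Cg.sum_zero
    intro k hk
    have h1 := (term_zero (M := M) (a := a) (b := b) (k := k + 1 + 1) (by omega) (h k hk)).zmul
      (sgn n s (k + 1 + 1))
    rw [mul_zero] at h1
    refine (Cg.of_eq ?_).trans h1
    ring
  have h2 := h0.add (Cg.refl M (2 ^ (a + b) * (sgn n s 1 : ℚ)))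
  rw [zero_add] at h2
  refine (Cg.of_eq ?_).trans h2
  congr 1
  push_cast
  rw [pow_add]
  ring

/-- a multiple of the series in which only the first two terms matter -/
lemma pAA_two {M a b n s K : ℕ}
    (h : ∀ k < K, ∀ v, 2 ^ v ∣ k + 3 → M + v ≤ a + b * (k + 3)) :
    Cg M (2 ^ a * AA n (2 ^ b) s (K + 2))
      (2 ^ a * (2 ^ b) ^ 2 / 2 * (sgn n s 2 : ℚ) + 2 ^ (a + b) * (sgn n s 1 : ℚ)) := by
  unfold AA
  rw [Finset.sum_range_succ', Finset.sum_range_succ', mul_add, mul_add, Finset.mul_sum]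
  have h0 : Cg M (∑ k ∈ Finset.range K, (2 : ℚ) ^ a * ((sgn n s (k + 1 + 1 + 1) : ℚ) *
      (((2 ^ b : ℕ) : ℚ) ^ (k + 1 + 1 + 1) / ((k + 1 + 1 + 1 : ℕ) : ℚ)))) 0 := by
    apply Cg.sum_zero
    intro k hk
    have h1 := (term_zero (M := M) (a := a) (b := b) (k := k + 1 + 1 + 1) (by omega)
      (h k hk)).zmul (sgn n s (k + 1 + 1 + 1))
    rw [mul_zero] at h1
    refine (Cg.of_eq ?_).trans h1
    ring
  have h2 := h0.add (Cg.refl M (2 ^ a * (2 ^ b) ^ 2 / 2 * (sgn n s 2 : ℚ) +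
    2 ^ (a + b) * (sgn n s 1 : ℚ)))
  rw [zero_add] at h2
  refine (Cg.of_eq ?_).trans h2
  rw [add_assoc]
  congr 1
  push_cast
  rw [pow_add]
  norm_num
  ring

lemma pSO_zero {M a b n s K : ℕ} (h : ∀ l < K, M ≤ a + b * (2 * l + 1)) :
    Cg M (2 ^ a * SO n (2 ^ b) s K) 0 := by
  unfold SO
  rw [Finset.mul_sum]
  apply Cg.sum_zero
  intro l hl
  have h1 := (term_zero (M := M) (a := a) (b := b) (k := 2 * l + 1) (by omega) (fun v hv => by
    have hv0 : v = 0 := by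
      by_contra hne
      have : 2 ∣ 2 * l + 1 := (dvd_pow_self 2 hne).trans hv
      omega
    subst hv0
    exact h l hl)).zmul (sgn n s (2 * l + 1))
  rw [mul_zero] at h1
  refine (Cg.of_eq ?_).trans h1
  ring

lemma pSO_first {M a b n s K : ℕ} (h : ∀ l < K, M ≤ a + b * (2 * l + 3)) :
    Cg M (2 ^ a * SO n (2 ^ b) s (K + 1)) (2 ^ (a + b) * (sgn n s 1 : ℚ)) := by
  unfold SO
  rw [Finset.sum_range_succ', mul_add, Finset.mul_sum]
  have h0 : Cg M (∑ l ∈ Finset.range K, (2 : ℚ) ^ a * ((sgn n s (2 * (l + 1) + 1) : ℚ) *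
      (((2 ^ b : ℕ) : ℚ) ^ (2 * (l + 1) + 1) / ((2 * (l + 1) + 1 : ℕ) : ℚ)))) 0 := by
    apply Cg.sum_zero
    intro l hl
    have h1 := (term_zero (M := M) (a := a) (b := b) (k := 2 * (l + 1) + 1) (by omega)
      (fun v hv => by
      have hv0 : v = 0 := by
        by_contra hne
        have : 2 ∣ 2 * (l + 1) + 1 := (dvd_pow_self 2 hne).trans hv
        omega
      subst hv0
      have := h l hl
      have e : 2 * (l + 1) + 1 = 2 * l + 3 := by omega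
      rw [e]
      exact this)).zmul (sgn n s (2 * (l + 1) + 1))
    rw [mul_zero] at h1
    refine (Cg.of_eq ?_).trans h1
    ring
  have h2 := h0.add (Cg.refl M (2 ^ (a + b) * (sgn n s 1 : ℚ)))
  rw [zero_add] at h2
  refine (Cg.of_eq ?_).trans h2
  congr 1
  push_cast
  rw [pow_add]
  norm_num
  ring

end Pool.Agent.U976.Fer
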