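import Pool.Agent.U976.Fer.Cor

set_option autoImplicit false

namespace Pool.Agent.U976.Fer

open Pool.Agent.Y875.FP

lemma kk {k : ℕ} (hk : 3 ≤ k) : k + 5 ≤ 2 ^ k := by
  induction k, hk using Nat.le_induction with
  | base => norm_num
  | succ k hk ih =>
    rw [pow_succ]
    omega

/-- the tail of the series vanishes -/
lemma AA_one {k m s : ℕ} (hk : 3 ≤ k) (hm : m = k + 2 ^ k) (n : ℕ) :
    Cg (m + 3) (AA n (2 ^ 2 ^ k) s (2 * m + 4)) ((sgn n s 1 : ℚ) * 2 ^ 2 ^ k) := by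
  unfold AA
  rw [show 2 * m + 4 = (2 * m + 3) + 1 by ring, Finset.sum_range_succ']
  have h1 : Cg (m + 3) (∑ j ∈ Finset.range (2 * m + 3), (sgn n s (j + 1 + 1) : ℚ) *
      (((2 ^ 2 ^ k : ℕ) : ℚ) ^ (j + 1 + 1) / ((j + 1 + 1 : ℕ) : ℚ))) 0 := by
    apply Cg.sum_zero
    intro j _
    have h2 : Cg (m + 3) (2 ^ 0 * (((2 ^ 2 ^ k : ℕ) : ℚ) ^ (j + 1 + 1) / ((j + 1 + 1 : ℕ) : ℚ)))
        0 := by
      apply term_zero (by omega)
      intro v hv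
      have h3 : 2 ^ v ≤ j + 2 := Nat.le_of_dvd (by omega) hv
      have h4 : v < 2 ^ v := Nat.lt_two_pow_self
      have h5 := kk hk
      have h6 : 2 ^ k * (j + 1 + 1) = 2 ^ k + 2 ^ k + 2 ^ k * j := by ring
      have h7 : (k + 5) * j ≤ 2 ^ k * j := Nat.mul_le_mul_right _ h5
      have h8 : j ≤ (k + 5) * j := Nat.le_mul_of_pos_left _ (by omega)
      omega
    have h3 := h2.zmul (sgn n s (j + 1 + 1))
    rw [pow_zero, one_mul, mul_zero] at h3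
    exact h3
  have h2 := h1.add (Cg.refl (m + 3) ((sgn n s (0 + 1) : ℚ) *
      (((2 ^ 2 ^ k : ℕ) : ℚ) ^ (0 + 1) / ((0 + 1 : ℕ) : ℚ))))
  refine h2.trans (Cg.of_eq ?_)
  push_cast
  ring

/-- the closed form of the index -/
theorem closed {k m s c : ℕ} (hk : 3 ≤ k) (hm : m = k + 2 ^ k)
    (hc : c < 2 ^ (2 ^ k + 1)) (hsc : s * c ≡ 1 [MOD 2 ^ (2 ^ k + 1)])
    (hF : (Nat.fermatNumber m).Prime) :
    ((2 : ZMod (Nat.fermatNumber m)) ^ (2 ^ k * s) - 1) ^ TT m =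
      2 ^ ((if c < 2 ^ 2 ^ k then 1 else 2 ^ (m + 1) - 1) * s * 2 ^ (2 ^ k - 2)) := by
  have h5 := kk hk
  have hcs : c * s ≡ 1 [MOD 2 ^ (2 ^ k + 1)] := by rwa [mul_comm]
  obtain ⟨-, hs⟩ := odd_of_inv hcs
  apply law (by omega) (by omega) (by omega) hs _ hF
  have hmk : m - k = 2 ^ k := by omega
  rw [hmk]
  have h1 := (AA_one (s := s) hk hm (2 ^ k)).zmul (s : ℤ)
  have h2 : corr m k s = 0 := by
    unfold corr
    rw [if_neg (by omega), if_neg (by omega)]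
  rw [h2]
  have h3 : sgn (2 ^ k) s 1 = if c < 2 ^ 2 ^ k then 1 else -1 := by
    rw [sgn_eq hcs, one_mul, Nat.mod_eq_of_lt hc]
  have h4 : Cg (m + 3) ((((4 * ((if c < 2 ^ 2 ^ k then 1 else 2 ^ (m + 1) - 1) * s *
      2 ^ (2 ^ k - 2)) : ℕ) : ℤ)) : ℚ) (((s : ℤ) * (sgn (2 ^ k) s 1 * 2 ^ 2 ^ k) : ℤ) : ℚ) := by
    apply Cg.int
    rw [h3]
    have h6 : (2 : ℤ) ^ 2 ^ k = 4 * 2 ^ (2 ^ k - 2) := by
      rw [show (4 : ℤ) = 2 ^ 2 by norm_num, ← pow_add]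
      congr 1
      omega
    have h7 : (1 : ℕ) ≤ 2 ^ (m + 1) := Nat.one_le_two_pow
    rw [h6]
    by_cases h : c < 2 ^ 2 ^ k
    · rw [if_pos h, if_pos h]
      refine ⟨0, ?_⟩
      push_cast
      ring
    · rw [if_neg h, if_neg h]
      refine ⟨s * 2 ^ (2 ^ k - 2), ?_⟩
      have h8 : ((2 ^ (m + 1) - 1 : ℕ) : ℤ) = 2 ^ (m + 1) - 1 := by
        rw [Nat.cast_sub h7]
        push_cast
        ring
      have h9 : (2 : ℤ) ^ (m + 3) = 4 * 2 ^ (m + 1) := by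
        rw [show m + 3 = (m + 1) + 2 by ring, pow_add]
        ring
      rw [h9, Nat.cast_mul, Nat.cast_mul, Nat.cast_mul, h8]
      push_cast
      ring
  have h6 : Cg (m + 3) (((s : ℤ) * (sgn (2 ^ k) s 1 * 2 ^ 2 ^ k) : ℤ) : ℚ)
      ((s : ℚ) * AA (2 ^ k) (2 ^ 2 ^ k) s (2 * m + 4) + ((0 : ℤ) : ℚ)) := by
    refine Cg.trans (Cg.of_eq ?_) (h1.symm.trans (Cg.of_eq ?_))
    · push_cast
      ring
    · push_cast
      ring
  refine Cg.trans (Cg.of_eq ?_) (h4.trans h6)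
  push_cast
  ring

/-- the order of two -/
lemma two_pow_ne_one {m a : ℕ} (h : ¬ 2 ^ (m + 1) ∣ a) :
    (2 : ZMod (Nat.fermatNumber m)) ^ a ≠ 1 := by
  intro h1
  exact h ((prim_two m).dvd_of_pow_eq_one _ h1)

/-- the exponents are not divisible by `2^(m+1)` -/
lemma exp_not_dvd {k m s : ℕ} (b : Prop) [Decidable b] (hk : 3 ≤ k) (hm : m = k + 2 ^ k)
    (hs : Odd s) :
    ¬ 2 ^ (m + 1) ∣ (if b then 1 else 2 ^ (m + 1) - 1) * s * 2 ^ (2 ^ k - 2) := by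
  intro hd
  have h1 : Odd ((if b then 1 else 2 ^ (m + 1) - 1) * s) := by
    apply Odd.mul _ hs
    by_cases h : b
    · rw [if_pos h]
      exact odd_one
    · rw [if_neg h]
      refine Nat.Even.sub_odd Nat.one_le_two_pow ?_ odd_one
      rw [pow_succ]
      exact even_two.mul_left _
  have h2 : Nat.Coprime (2 ^ (m + 1)) ((if b then 1 else 2 ^ (m + 1) - 1) * s) := by
    apply Nat.Coprime.pow_left
    rw [Nat.coprime_two_left]
    exact h1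
  have h3 := h2.dvd_of_dvd_mul_left hd
  have h4 := (Nat.pow_dvd_pow_iff_le_right (by norm_num)).mp h3
  omega

/-- the criterion -/
theorem closed_iff {k m s c : ℕ} (hk : 3 ≤ k) (hm : m = k + 2 ^ k)
    (hc : c < 2 ^ (2 ^ k + 1)) (hsc : s * c ≡ 1 [MOD 2 ^ (2 ^ k + 1)]) :
    (Nat.fermatNumber m).Prime ↔
    ((2 : ZMod (Nat.fermatNumber m)) ^ (2 ^ k * s) - 1) ^ TT m =
      2 ^ ((if c < 2 ^ 2 ^ k then 1 else 2 ^ (m + 1) - 1) * s * 2 ^ (2 ^ k - 2)) := by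
  have h5 := kk hk
  have hcs : c * s ≡ 1 [MOD 2 ^ (2 ^ k + 1)] := by rwa [mul_comm]
  obtain ⟨-, hs⟩ := odd_of_inv hcs
  exact ⟨closed hk hm hc hsc, fun h =>
    mersenne_conv (by omega) (exp_not_dvd _ hk hm hs) h⟩

/-- even exponents -/
theorem even_case {k m s : ℕ} (hk : 3 ≤ k) (hm : m = k + 2 ^ k) (hs : Even s)
    (hnd : ¬ 2 ^ (2 ^ k + 1) ∣ s) (hF : (Nat.fermatNumber m).Prime) :
    ((2 : ZMod (Nat.fermatNumber m)) ^ (2 ^ k * s) - 1) ^ TT m = 1 := by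
  have h5 := kk hk
  apply res_s (i := k + 1) (by omega) _ _ _ hF
  · rw [pow_succ]
    omega
  · obtain ⟨r, hr⟩ := hs
    refine ⟨r, ?_⟩
    rw [hr, pow_succ]
    ring
  · intro hd
    apply hnd
    have h1 : m + 1 = k + (2 ^ k + 1) := by omega
    rw [h1, pow_add] at hd
    exact Nat.dvd_of_mul_dvd_mul_left (by positivity) hd

lemma plus_mul {m k s : ℕ} :
    ((2 : ZMod (Nat.fermatNumber m)) ^ (2 ^ k * s) + 1) * (2 ^ (2 ^ k * s) - 1) =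
      2 ^ (2 ^ k * (2 * s)) - 1 := by
  rw [show 2 ^ k * (2 * s) = 2 ^ k * s * 2 by ring, pow_mul _ (2 ^ k * s) 2]
  ring

/-- the bases `n^s + 1`, `s` even -/
theorem even_plus {k m s : ℕ} (hk : 3 ≤ k) (hm : m = k + 2 ^ k) (hs : Even s)
    (hnd : ¬ 2 ^ (2 ^ k) ∣ s) (hF : (Nat.fermatNumber m).Prime) :
    ((2 : ZMod (Nat.fermatNumber m)) ^ (2 ^ k * s) + 1) ^ TT m = 1 := by
  have h1 : ¬ 2 ^ (2 ^ k + 1) ∣ s := fun h => hnd ((pow_dvd_pow 2 (by omega)).trans h)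
  have h2 : ¬ 2 ^ (2 ^ k + 1) ∣ 2 * s := by
    intro h
    apply hnd
    rw [pow_succ'] at h
    exact Nat.dvd_of_mul_dvd_mul_left (by norm_num) h
  have h3 := congrArg (· ^ TT m) (plus_mul (m := m) (k := k) (s := s))
  beta_reduce at h3
  rw [mul_pow, even_case hk hm hs h1 hF, even_case hk hm (even_two_mul s) h2 hF, mul_one] at h3
  exact h3

/-- the bases `n^s + 1`, `s` odd -/
theorem odd_plus {k m s c : ℕ} (hk : 3 ≤ k) (hm : m = k + 2 ^ k)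
    (hc : c < 2 ^ (2 ^ k + 1)) (hsc : s * c ≡ 1 [MOD 2 ^ (2 ^ k + 1)]) :
    (Nat.fermatNumber m).Prime ↔
    ((2 : ZMod (Nat.fermatNumber m)) ^ (2 ^ k * s) + 1) ^ TT m =
      2 ^ ((if c < 2 ^ 2 ^ k then 2 ^ (m + 1) - 1 else 1) * s * 2 ^ (2 ^ k - 2)) := by
  have h5 := kk hk
  have hcs : c * s ≡ 1 [MOD 2 ^ (2 ^ k + 1)] := by rwa [mul_comm]
  obtain ⟨-, hs⟩ := odd_of_inv hcs
  -- the product of the two powers of two is one
  have h0 : (2 : ZMod (Nat.fermatNumber m)) ^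
      ((if c < 2 ^ 2 ^ k then 1 else 2 ^ (m + 1) - 1) * s * 2 ^ (2 ^ k - 2)) *
      2 ^ ((if c < 2 ^ 2 ^ k then 2 ^ (m + 1) - 1 else 1) * s * 2 ^ (2 ^ k - 2)) = 1 := by
    rw [← pow_add, ← add_mul, ← add_mul]
    have h1 : (if c < 2 ^ 2 ^ k then 1 else 2 ^ (m + 1) - 1) +
        (if c < 2 ^ 2 ^ k then 2 ^ (m + 1) - 1 else 1) = 2 ^ (m + 1) := by
      have h7 : (1 : ℕ) ≤ 2 ^ (m + 1) := Nat.one_le_two_pow
      split <;> omega
    rw [h1, mul_assoc, pow_mul, two_pow_one, one_pow]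
  constructor
  · intro hF
    have h1 := closed hk hm hc hsc hF
    have h2 : ¬ 2 ^ (2 ^ k + 1) ∣ 2 * s := by
      intro h
      have h3 : 2 ^ 2 ∣ 2 * s := (pow_dvd_pow 2 (by omega)).trans h
      obtain ⟨r, hr⟩ := hs
      omega
    have h3 := congrArg (· ^ TT m) (plus_mul (m := m) (k := k) (s := s))
    beta_reduce at h3
    rw [mul_pow, h1, even_case hk hm (even_two_mul s) h2 hF] at h3
    have h4 := congrArg (· * 2 ^ ((if c < 2 ^ 2 ^ k then 2 ^ (m + 1) - 1 else 1) * s *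
      2 ^ (2 ^ k - 2))) h3
    beta_reduce at h4
    rw [mul_assoc, h0, mul_one, one_mul] at h4
    exact h4
  · intro h
    -- `2^(2^k s) + 1 = - (2^(2^k (s + n)) - 1)`
    have h1 : (2 : ZMod (Nat.fermatNumber m)) ^ (2 ^ k * (s + 2 ^ 2 ^ k)) =
        - 2 ^ (2 ^ k * s) := by
      have h2 : 2 ^ k * (s + 2 ^ 2 ^ k) = 2 ^ k * s + 2 ^ m := by
        rw [hm, pow_add]
        ring
      rw [h2, pow_add, two_pow_neg]
      ring
    have h2 : ((2 : ZMod (Nat.fermatNumber m)) ^ (2 ^ k * (s + 2 ^ 2 ^ k)) - 1) ^ TT m =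
        2 ^ ((if c < 2 ^ 2 ^ k then 2 ^ (m + 1) - 1 else 1) * s * 2 ^ (2 ^ k - 2)) := by
      rw [← h, h1, ← (even_T (show 4 ≤ m by omega)).neg_pow]
      congr 1
      ring
    apply mersenne_conv (by omega) _ h2
    have h3 := exp_not_dvd (k := k) (m := m) (s := s) (¬ c < 2 ^ 2 ^ k) hk hm hs
    have h4 : (if ¬ c < 2 ^ 2 ^ k then 1 else 2 ^ (m + 1) - 1) =
        (if c < 2 ^ 2 ^ k then 2 ^ (m + 1) - 1 else 1) := by
      by_cases hh : c < 2 ^ 2 ^ k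
      · rw [if_pos hh, if_neg (not_not.mpr hh)]
      · rw [if_neg hh, if_pos hh]
    rwa [h4] at h3

end Pool.Agent.U976.Fer
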