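import Pool.Agent.U976.Fer.Cg

set_option autoImplicit false

namespace Pool.Agent.U976.Fer

open Pool.Agent.Y875.FP

/-- an inverse of `s` modulo `2^(n+1)` -/
lemma exists_inv (n : ℕ) {s : ℕ} (hs : Odd s) : ∃ w : ℕ, w * s ≡ 1 [MOD 2 ^ (n + 1)] := by
  have hcop : Nat.Coprime s (2 ^ (n + 1)) := by
    apply Nat.Coprime.pow_right
    rw [Nat.coprime_two_right]
    exact hs
  have h1 : 1 < 2 ^ (n + 1) := Nat.one_lt_two_pow (by omega)
  obtain ⟨w, hw⟩ := Nat.exists_mul_mod_eq_one_of_coprime hcop h1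
  refine ⟨w, ?_⟩
  rw [Nat.ModEq, mul_comm, hw.2, Nat.mod_eq_of_lt h1]

lemma odd_of_inv {n s w : ℕ} (hw : w * s ≡ 1 [MOD 2 ^ (n + 1)]) : Odd w ∧ Odd s := by
  have h1 : w * s ≡ 1 [MOD 2] := hw.of_dvd (dvd_pow_self 2 (by omega))
  have h2 : Odd (w * s) := Nat.odd_iff.mpr h1
  exact Nat.odd_mul.mp h2

lemma sgn_eq {n s w : ℕ} (hw : w * s ≡ 1 [MOD 2 ^ (n + 1)]) (k : ℕ) :
    sgn n s k = if (k * w) % 2 ^ (n + 1) < 2 ^ n then 1 else -1 := by
  have hs := (odd_of_inv hw).2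
  unfold sgn
  have hcop : Nat.Coprime s (2 ^ (n + 1)) := by
    apply Nat.Coprime.pow_right
    rw [Nat.coprime_two_right]
    exact hs
  have h1 : (s : ZMod (2 ^ (n + 1)))⁻¹ = (w : ZMod (2 ^ (n + 1))) := by
    have h2 : ((w * s : ℕ) : ZMod (2 ^ (n + 1))) = 1 := by
      rw [(ZMod.natCast_eq_natCast_iff _ _ _).mpr hw, Nat.cast_one]
    have h3 := ZMod.coe_mul_inv_eq_one s hcop
    push_cast at h2
    calc (s : ZMod (2 ^ (n + 1)))⁻¹ = (w * s) * (s : ZMod (2 ^ (n + 1)))⁻¹ := by rw [h2, one_mul]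
      _ = w * (s * (s : ZMod (2 ^ (n + 1)))⁻¹) := by ring
      _ = w := by rw [h3, mul_one]
  rw [h1, ← Nat.cast_mul, ZMod.val_natCast]

/-- flipping the half -/
lemma flip_mod {N a : ℕ} (hN : 0 < N) :
    ((a + N) % (2 * N) < N) ↔ ¬ (a % (2 * N) < N) := by
  have h1 : (a + N) % (2 * N) = (a % (2 * N) + N) % (2 * N) := by
    rw [Nat.mod_add_mod]
  have h2 : a % (2 * N) < 2 * N := Nat.mod_lt _ (by omega)
  rw [h1]
  by_cases h : a % (2 * N) < N
  · rw [Nat.mod_eq_of_lt (by omega)]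
    omega
  · have h3 : (a % (2 * N) + N) % (2 * N) = a % (2 * N) - N := by
      have h4 : a % (2 * N) + N = (a % (2 * N) - N) + 2 * N := by omega
      rw [h4, Nat.add_mod_right, Nat.mod_eq_of_lt (by omega)]
    rw [h3]
    omega

lemma inv_shift {n s w : ℕ} (hn : 1 ≤ n) (hw : w * s ≡ 1 [MOD 2 ^ (n + 1)]) :
    (w + 2 ^ n) * (s + 2 ^ n) ≡ 1 [MOD 2 ^ (n + 1)] := by
  obtain ⟨⟨a, ha⟩, ⟨b, hb⟩⟩ := odd_of_inv hw
  obtain ⟨c, rfl⟩ := Nat.exists_eq_add_of_le hn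
  have h1 : (w + 2 ^ (1 + c)) * (s + 2 ^ (1 + c)) =
      w * s + 2 ^ (1 + c + 1) * (a + b + 1 + 2 ^ c) := by
    rw [ha, hb]
    ring
  rw [h1]
  have h2 : w * s + 2 ^ (1 + c + 1) * (a + b + 1 + 2 ^ c) ≡ w * s [MOD 2 ^ (1 + c + 1)] := by
    simp [Nat.ModEq]
  exact h2.trans hw

lemma sgn_shift_odd {n s k : ℕ} (hn : 1 ≤ n) (hs : Odd s) (hk : Odd k) :
    sgn n (s + 2 ^ n) k = - sgn n s k := by
  obtain ⟨w, hw⟩ := exists_inv n hs
  rw [sgn_eq hw, sgn_eq (inv_shift hn hw)]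
  obtain ⟨j, hj⟩ := hk
  have h1 : k * (w + 2 ^ n) = (k * w + 2 ^ n) + 2 * 2 ^ n * j := by rw [hj]; ring
  have h2 : (2 : ℕ) ^ (n + 1) = 2 * 2 ^ n := by ring
  rw [h1, h2, Nat.add_mul_mod_self_left]
  have h3 := flip_mod (a := k * w) (N := 2 ^ n) (by positivity)
  by_cases h : (k * w) % (2 * 2 ^ n) < 2 ^ n
  · rw [if_pos h, if_neg (by rw [h3]; exact not_not.mpr h)]
  · rw [if_neg h, if_pos (h3.mpr h)]
    norm_num

lemma sgn_shift_even {n s k : ℕ} (hn : 1 ≤ n) (hs : Odd s) (hk : Even k) :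
    sgn n (s + 2 ^ n) k = sgn n s k := by
  obtain ⟨w, hw⟩ := exists_inv n hs
  rw [sgn_eq hw, sgn_eq (inv_shift hn hw)]
  obtain ⟨j, hj⟩ := hk
  have h1 : k * (w + 2 ^ n) = k * w + 2 ^ (n + 1) * j := by rw [hj]; ring
  rw [h1, Nat.add_mul_mod_self_left]

lemma sgn_double {n s l : ℕ} (hn : 1 ≤ n) (hs : Odd s) :
    sgn n s (2 * l) = sgn (n - 1) s l := by
  obtain ⟨w, hw⟩ := exists_inv n hs
  have hw' : w * s ≡ 1 [MOD 2 ^ (n - 1 + 1)] := by
    apply hw.of_dvd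
    apply pow_dvd_pow
    omega
  rw [sgn_eq hw, sgn_eq hw']
  have h1 : n - 1 + 1 = n := by omega
  have h2 : (2 : ℕ) ^ (n + 1) = 2 * 2 ^ n := by ring
  have h3 : (2 : ℕ) ^ n = 2 * 2 ^ (n - 1) := by rw [← pow_succ', h1]
  rw [h1, h2, mul_assoc, Nat.mul_mod_mul_left]
  congr 1
  apply propext
  constructor <;> intro h <;> omega

/-- the quadrant identity -/
lemma sgn_quadrant {m s : ℕ} (hm : 4 ≤ m) (hs : Odd s) :
    (4 : ℤ) ∣ sgn m s 2 + sgn m s 1 + sgn m (s + 2 ^ (m - 1)) 1 - 1 := by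
  obtain ⟨w, hw⟩ := exists_inv m hs
  set h := 2 ^ (m - 1) with hh
  have e1 : (2 : ℕ) ^ m = 2 * h := by rw [hh, ← pow_succ']; congr 1; omega
  have e2 : (2 : ℕ) ^ (m + 1) = 4 * h := by rw [pow_succ, e1]; ring
  have hh0 : 0 < h := by rw [hh]; positivity
  -- `w + 3 s` is divisible by four
  have h4 : w * s ≡ 1 [MOD 8] := hw.of_dvd (by
    have : (8 : ℕ) = 2 ^ 3 := by norm_num
    rw [this]
    exact pow_dvd_pow 2 (by omega))
  have h5 : 4 ∣ w + 3 * s := by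
    have h6 : w * s % 8 = 1 := h4
    obtain ⟨b, hb⟩ := hs
    have h7 : (w % 8) * (s % 8) % 8 = 1 := by rw [← Nat.mul_mod]; exact h6
    have h8 : w % 8 < 8 := Nat.mod_lt _ (by norm_num)
    have h9 : s % 8 < 8 := Nat.mod_lt _ (by norm_num)
    have h10 : w % 8 = s % 8 := by
      interval_cases (w % 8) <;> interval_cases (s % 8) <;> simp_all
    omega
  obtain ⟨c, hc⟩ := h5
  have hw2 : (w + 3 * h) * (s + h) ≡ 1 [MOD 2 ^ (m + 1)] := by
    have h11 : ∃ e, h = 4 * e := ⟨2 ^ (m - 3), by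
      rw [hh, show (4 : ℕ) = 2 ^ 2 by norm_num, ← pow_add]; congr 1; omega⟩
    obtain ⟨e, he⟩ := h11
    have h12 : (w + 3 * h) * (s + h) = w * s + 2 ^ (m + 1) * (c + 3 * e) := by
      rw [e2]
      have : (w + 3 * h) * (s + h) = w * s + h * (w + 3 * s) + 3 * h * h := by ring
      rw [this, hc]
      nth_rewrite 3 [he]
      ring
    rw [h12]
    have h13 : w * s + 2 ^ (m + 1) * (c + 3 * e) ≡ w * s [MOD 2 ^ (m + 1)] := by
      simp [Nat.ModEq]
    exact h13.trans hw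
  rw [sgn_eq hw, sgn_eq hw, sgn_eq hw2, e2, e1, one_mul, one_mul]
  set r := w % (4 * h) with hr
  have hr1 : r < 4 * h := Nat.mod_lt _ (by omega)
  have r1 : 2 * w % (4 * h) = 2 * r % (4 * h) := by
    rw [hr, Nat.mul_mod_mod]
  have r2 : (w + 3 * h) % (4 * h) = (r + 3 * h) % (4 * h) := by
    rw [hr, Nat.mod_add_mod]
  rw [r1, r2]
  rcases Nat.lt_or_ge r h with c1 | c1
  · rw [Nat.mod_eq_of_lt (show 2 * r < 4 * h by omega),
      Nat.mod_eq_of_lt (show r + 3 * h < 4 * h by omega), if_pos (by omega), if_pos (by omega),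
      if_neg (by omega)]
    norm_num
  · have r3 : (r + 3 * h) % (4 * h) = r - h := by
      have : r + 3 * h = (r - h) + 4 * h := by omega
      rw [this, Nat.add_mod_right, Nat.mod_eq_of_lt (by omega)]
    rw [r3]
    rcases Nat.lt_or_ge r (2 * h) with c2 | c2
    · rw [Nat.mod_eq_of_lt (show 2 * r < 4 * h by omega), if_neg (by omega), if_pos (by omega),
        if_pos (by omega)]
      norm_num
    · have r4 : 2 * r % (4 * h) = 2 * r - 4 * h := by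
        have : 2 * r = (2 * r - 4 * h) + 4 * h := by omega
        rw [this, Nat.add_mod_right, Nat.mod_eq_of_lt (by omega)]
        omega
      rw [r4]
      rcases Nat.lt_or_ge r (3 * h) with c3 | c3
      · rw [if_pos (by omega), if_neg (by omega), if_pos (by omega)]
        norm_num
      · rw [if_neg (by omega), if_neg (by omega), if_neg (by omega)]
        norm_num

/-- the sum over the odd indices -/
def SO (n x s K : ℕ) : ℚ :=
  ∑ l ∈ Finset.range K, (sgn n s (2 * l + 1) : ℚ) * ((x : ℚ) ^ (2 * l + 1) / ((2 * l + 1 : ℕ) : ℚ))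

/-- the sum of the two series of `s` and `s + 2^n` -/
lemma pair_identity {n x s : ℕ} (hn : 1 ≤ n) (hs : Odd s) (K : ℕ) :
    (s : ℚ) * AA n x s (2 * K) + ((s + 2 ^ n : ℕ) : ℚ) * AA n x (s + 2 ^ n) (2 * K) =
      (s : ℚ) * AA (n - 1) (x ^ 2) s K + (2 ^ (n - 1) * AA (n - 1) (x ^ 2) s K -
        2 ^ n * SO n x s K) := by
  obtain ⟨c, rfl⟩ := Nat.exists_eq_add_of_le hn
  have e1 : 1 + c - 1 = c := by omega
  rw [e1]
  induction K with
  | zero => simp [AA, SO]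
  | succ K ih =>
    unfold AA SO at ih ⊢
    have e2 : 2 * (K + 1) = 2 * K + 1 + 1 := by ring
    rw [e2, Finset.sum_range_succ, Finset.sum_range_succ, Finset.sum_range_succ,
      Finset.sum_range_succ, Finset.sum_range_succ _ K, Finset.sum_range_succ _ K]
    have s1 : sgn (1 + c) (s + 2 ^ (1 + c)) (2 * K + 1) = - sgn (1 + c) s (2 * K + 1) :=
      sgn_shift_odd hn hs ⟨K, rfl⟩
    have s2 : sgn (1 + c) (s + 2 ^ (1 + c)) (2 * K + 1 + 1) = sgn (1 + c) s (2 * K + 1 + 1) :=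
      sgn_shift_even hn hs ⟨K + 1, by ring⟩
    have s3 : sgn (1 + c) s (2 * K + 1 + 1) = sgn c s (K + 1) := by
      have := sgn_double (l := K + 1) hn hs
      rw [e1] at this
      rw [← this]
      congr 1
    rw [s1, s2, s3]
    have hK : ((K : ℚ) + 1) ≠ 0 := by positivity
    have hK2 : (2 * (K : ℚ) + 1) ≠ 0 := by positivity
    push_cast at ih ⊢
    have t1 : ((x : ℚ) ^ (2 * K + 1 + 1) / (2 * (K : ℚ) + 1 + 1)) =
        ((x : ℚ) ^ 2) ^ (K + 1) / ((K : ℚ) + 1) / 2 := by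
      have : (2 * (K : ℚ) + 1 + 1) = 2 * ((K : ℚ) + 1) := by ring
      rw [this]
      field_simp
      ring
    rw [t1]
    rw [pow_add 2 1 c] at ih ⊢
    linear_combination ih

end Pool.Agent.U976.Fer
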